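import Pool.Agent.H93.BL.Basic
import Pool.Agent.H79.BN.Targets

/-!
# Non-separation: two sides of a strictly convex polygon
-/

namespace Pool.Agent.H88.BN

open MeasureTheory Set Filter Topology Pool.Agent.H93.BL Pool.Agent.H79.BN

theorem v3 (h0 : T_V0) (h1 : T_V1) : T_V3 := by
  intro n _ w hn hw j k x hx
  obtain ⟨hed, hinj, -, hnn, hz⟩ := h1 n w hn hw
  obtain ⟨a, b, ha, hb, hab, hx⟩ := hx
  have hxk : ∀ i, x - w i = (a : ℂ) * (w k - w i) + (b : ℂ) * (w (k + 1) - w i) := by
    intro i
    have : (a : ℂ) + (b : ℂ) = 1 := by exact_mod_cast hab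
    rw [← hx, Complex.real_smul, Complex.real_smul]
    linear_combination (w i) * this
  have key : ∀ i, cr (ed w i) (x - w i) =
      a * cr (ed w i) (w k - w i) + b * cr (ed w i) (w (k + 1) - w i) := by
    intro i
    rw [hxk i, cr_add_right, cr_smul_right, cr_smul_right]
  have p1 : ∀ i, 0 ≤ cr (ed w i) (x - w i) := by
    intro i
    rw [key i]
    exact add_nonneg (mul_nonneg ha (hnn i k)) (mul_nonneg hb (hnn i (k + 1)))
  have p2 : cr (ed w k) (x - w k) = 0 := by
    rw [key k, sub_self, cr_zero_right]
    have : cr (ed w k) (w (k + 1) - w k) = 0 := cr_self _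
    rw [this]; ring
  have p5 : k ≠ j → cr (ed w j) (x - w j) = 0 →
      (x = w j ∧ k = j - 1) ∨ (x = w (j + 1) ∧ k = j + 1) := by
    intro hkj hzero
    rw [key j] at hzero
    have q1 : a * cr (ed w j) (w k - w j) = 0 ∧ b * cr (ed w j) (w (k + 1) - w j) = 0 := by
      have e1 := mul_nonneg ha (hnn j k)
      have e2 := mul_nonneg hb (hnn j (k + 1))
      exact ⟨by linarith, by linarith⟩
    obtain ⟨f1, f2, f3, f4, f5, f6, f7, f8, f9, f10⟩ := h0 n hn j
    have hk1 : k = j - 1 → k + 1 = j := fun h => by rw [h, f6]
    rcases mul_eq_zero.1 q1.1 with h | h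
    · -- a = 0, x = w (k + 1)
      have hb1 : b = 1 := by linarith
      have hxe : x = w (k + 1) := by
        rw [← hx, h, hb1]; simp
      rw [hb1, one_mul] at q1
      rcases hz j (k + 1) q1.2 with h' | h'
      · left
        refine ⟨by rw [hxe, h'], ?_⟩
        have := (h0 n hn k).2.2.2.2.2.2.1
        rw [← this, h']
      · exfalso
        exact hkj (add_right_cancel h')
    · rcases hz j k h with h' | h'
      · exact absurd h' hkj
      · -- k = j + 1
        rcases mul_eq_zero.1 q1.2 with h2 | h2
        · right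
          have ha1 : a = 1 := by linarith
          refine ⟨?_, h'⟩
          rw [← hx, h2, ha1, ← h']; simp
        · exfalso
          rcases hz j (k + 1) h2 with h3 | h3
          · rw [h', f4] at h3
            exact f2 h3
          · exact hkj (add_right_cancel h3)
  refine ⟨p1, p2, ?_, ?_, p5⟩
  · intro hopen
    by_contra hkj
    have hline : cr (ed w j) (x - w j) = 0 := by
      obtain ⟨a', b', ha', hb', hab', hx'⟩ := hopen
      have : x - w j = (b' : ℂ) * ed w j := by
        have : (a' : ℂ) + (b' : ℂ) = 1 := by exact_mod_cast hab'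
        rw [← hx', Complex.real_smul, Complex.real_smul, ed]
        linear_combination (w j) * this
      rw [this, cr_smul_right, cr_self, mul_zero]
    have hne : w j ≠ w (j + 1) := by
      intro h
      exact (h0 n hn j).1 (hinj _ _ h).symm
    rcases p5 hkj hline with h | h
    · rw [h.1] at hopen
      exact hne (left_mem_openSegment_iff.1 hopen)
    · rw [h.1] at hopen
      exact hne (right_mem_openSegment_iff.1 hopen)
  · intro hxj
    rw [hxj] at p2
    rcases hz k j p2 with h | h
    · right; exact h.symm
    · left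
      have := (h0 n hn k).2.2.2.2.2.2.1
      rw [h, this]

end Pool.Agent.H88.BN
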