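import Pool.Agent.H93.BL.Basic
import Pool.Agent.H79.BN.Targets

/-!
# Non-separation: limits of steps
-/

namespace Pool.Agent.H88.BN

open MeasureTheory Set Filter Topology Pool.Agent.H93.BL Pool.Agent.H79.BN

lemma tendsto_cr {α : Type*} {F : Filter α} {a b : α → ℂ} {x y : ℂ} (ha : Tendsto a F (𝓝 x))
    (hb : Tendsto b F (𝓝 y)) : Tendsto (fun k => cr (a k) (b k)) F (𝓝 (cr x y)) := by
  have r1 := (Complex.continuous_re.tendsto x).comp ha
  have i1 := (Complex.continuous_im.tendsto x).comp ha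
  have r2 := (Complex.continuous_re.tendsto y).comp hb
  have i2 := (Complex.continuous_im.tendsto y).comp hb
  exact (r1.mul i2).sub (i1.mul r2)

lemma close_p {n : ℕ} [NeZero n] {w : Fin n → ℂ} {F : Filter ℕ} {P : ℕ → Polygon (Fin n)}
    (h : ∀ δ > (0 : ℝ), ∀ᶠ k in F, Close w δ (P k)) (i : Fin n) :
    Tendsto (fun k => (P k).p i) F (𝓝 (w i)) := by
  rw [Metric.tendsto_nhds]
  intro ε hε
  filter_upwards [h ε hε] with k hk
  rw [dist_eq_norm]
  exact hk.2 i

lemma close_q {n : ℕ} [NeZero n] {w : Fin n → ℂ} {F : Filter ℕ} {P : ℕ → Polygon (Fin n)}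
    (h : ∀ δ > (0 : ℝ), ∀ᶠ k in F, Close w δ (P k)) (i : Fin n) :
    Tendsto (fun k => (P k).q i) F (𝓝 (w (i + 1))) := by
  refine (close_p h (i + 1)).congr' ?_
  filter_upwards [h 1 one_pos] with k hk
  exact (hk.1 i).symm

theorem v7 (h1 : T_V1) : T_V7 := by
  intro n _ w hn hw F P z z' s y d hclose hstep hy hd
  have hed : ed w s ≠ 0 := (h1 n w hn hw).1 s
  have hp := close_p hclose s
  have hq := close_q hclose s
  have he : Tendsto (fun k => (P k).q s - (P k).p s) F (𝓝 (ed w s)) := hq.sub hp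
  -- the barycentric coordinate
  have hl : ∀ᶠ k in (F : Filter ℕ), (z' k).2.1 / (P k).len s ∈ Icc (0 : ℝ) 1 := by
    filter_upwards [hstep] with k hk
    obtain ⟨⟨_, hph, _⟩, hs⟩ := hk
    have hl := (P k).len_pos s
    rw [← hs] at hl ⊢
    exact ⟨(div_pos hph.1 hl).le, (div_le_one hl).2 hph.2.1.le⟩
  obtain ⟨lam, hlam, hlim⟩ := isCompact_Icc.ultrafilter_le_nhds
    (F.map fun k => (z' k).2.1 / (P k).len s) (by
      rw [le_principal_iff]
      exact hl)
  have hlim' : Tendsto (fun k => (z' k).2.1 / (P k).len s) F (𝓝 lam) := hlim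
  have hlimC : Tendsto (fun k => (((z' k).2.1 / (P k).len s : ℝ) : ℂ)) F (𝓝 (lam : ℂ)) :=
    (Complex.continuous_ofReal.tendsto lam).comp hlim'
  set x : ℂ := w s + (lam : ℂ) * ed w s with hx
  have hpos : Tendsto (fun k => (P k).pos (z' k)) F (𝓝 x) := by
    refine (hp.add (hlimC.mul he)).congr' ?_
    filter_upwards [hstep] with k hk
    obtain ⟨_, hs⟩ := hk
    simp only [Polygon.pos, hs]
    rw [(P k).q_sub s]
    have := (P k).len_ne s
    push_cast
    field_simp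
  have hposeq : ∀ᶠ k in (F : Filter ℕ), (P k).pos (z' k) = (P k).pos (z k) +
      ((‖(P k).pos (z' k) - (P k).pos (z k)‖ : ℝ) : ℂ) * (P k).dir (z k) := by
    filter_upwards [hstep] with k hk
    obtain ⟨⟨_, _, t, ht, hpe, _⟩, _⟩ := hk
    have : ‖(P k).pos (z' k) - (P k).pos (z k)‖ = t := by
      rw [hpe, add_sub_cancel_left, norm_mul, (P k).norm_dir, mul_one, Complex.norm_real,
        Real.norm_of_nonneg ht.le]
    rw [this, ← hpe]
  have hnorm : Tendsto (fun k => ((‖(P k).pos (z' k) - (P k).pos (z k)‖ : ℝ) : ℂ)) F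
      (𝓝 ((‖x - y‖ : ℝ) : ℂ)) :=
    (Complex.continuous_ofReal.tendsto _).comp (hpos.sub hy).norm
  have hxe : x = y + ((‖x - y‖ : ℝ) : ℂ) * d := by
    refine tendsto_nhds_unique hpos ((hy.add (hnorm.mul hd)).congr' ?_)
    filter_upwards [hposeq] with k hk
    exact hk.symm
  refine ⟨‖x - y‖, norm_nonneg _, ?_, ?_, ?_, ?_⟩
  · rw [← hxe, segment_eq_image']
    refine ⟨lam, hlam, ?_⟩
    simp only [Complex.real_smul, hx, ed]
  · refine le_of_tendsto (tendsto_cr he hd) ?_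
    filter_upwards [hstep] with k hk
    obtain ⟨⟨_, hph, _, _, _, _, hdir⟩, hs⟩ := hk
    have h2 := (P k).ip_dir_n (z' k)
    rw [hdir, (P k).ip_refl_n] at h2
    have h3 := (P k).cos_pos_of_phase hph
    rw [(P k).q_sub s, cr_smul_left, ← (P k).ip_n, ← hs]
    have h4 := (P k).len_pos (z' k).1
    have h5 : ip ((P k).dir (z k)) ((P k).n (z' k).1) < 0 := by linarith
    nlinarith
  · rw [← hxe]; exact hpos
  · have hn1 : Tendsto (fun k => ((‖(P k).q s - (P k).p s‖ : ℝ) : ℂ)) F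
        (𝓝 ((‖ed w s‖ : ℝ) : ℂ)) := (Complex.continuous_ofReal.tendsto _).comp he.norm
    have hne : ((‖ed w s‖ : ℝ) : ℂ) ≠ 0 := by
      exact_mod_cast norm_ne_zero_iff.2 hed
    have hu : Tendsto (fun k => (P k).u s) F (𝓝 (ed w s / ((‖ed w s‖ : ℝ) : ℂ))) :=
      he.div hn1 hne
    have hc : Tendsto (fun k => (starRingEnd ℂ) ((P k).dir (z k))) F
        (𝓝 ((starRingEnd ℂ) d)) := (Complex.continuous_conj.tendsto d).comp hd
    have hfin := (hu.pow 2).mul hc
    have e1 : (ed w s / ((‖ed w s‖ : ℝ) : ℂ)) ^ 2 * (starRingEnd ℂ) d =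
        rf (ed w s) d / ((‖ed w s‖ ^ 2 : ℝ) : ℂ) := by
      unfold rf
      push_cast
      rw [div_pow]
      ring
    rw [← e1]
    refine hfin.congr' ?_
    filter_upwards [hstep] with k hk
    obtain ⟨⟨_, _, _, _, _, _, hdir⟩, hs⟩ := hk
    rw [hdir, hs]
    rfl

end Pool.Agent.H88.BN
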